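import Mathlib

open Set TopologicalSpace Topology

namespace Pool.Agent.Results.MP_dd3b7d_gt.SmythCoConsonance

/-- `X` is co-consonant: the upper topology and the Scott topology of the complete lattice of open
sets of `X` coincide. -/
def CoConsonant (X : Type*) [TopologicalSpace X] : Prop :=
  Topology.upper (Opens X) = Topology.scott (Opens X) Set.univ

/-- `X` is consonant: for every Scott open family `F` of open sets and every `U ∈ F` there is a
compact `K ⊆ U` such that every open set containing `K` lies in `F`. -/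
def Consonant (X : Type*) [TopologicalSpace X] : Prop :=
  ∀ F : Set (Opens X), IsOpen[Topology.scott (Opens X) Set.univ] F → ∀ U ∈ F,
    ∃ K : Set X, IsCompact K ∧ K ⊆ U ∧ ∀ V : Opens X, K ⊆ V → V ∈ F

/-- The set of nonempty compact saturated subsets of `X`. -/
def SmythPowerspace (X : Type*) [TopologicalSpace X] : Type _ :=
  {K : Set X // K.Nonempty ∧ IsCompact K ∧ ⋂₀ {U : Set X | IsOpen U ∧ K ⊆ U} = K}

/-- The upper Vietoris topology: the sets `□U = {K | K ⊆ U}`, `U` open, form a base. -/
instance (X : Type*) [TopologicalSpace X] : TopologicalSpace (SmythPowerspace X) :=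
  generateFrom {B | ∃ U : Set X, IsOpen U ∧ B = {K : SmythPowerspace X | K.1 ⊆ U}}

/-! ### A pointwise description of co-consonance -/

theorem scott_iff {L : Type*} [Preorder L] {F : Set L} :
    IsOpen[Topology.scott L Set.univ] F ↔ IsUpperSet F ∧ DirSupInacc F := by
  let _ : TopologicalSpace L := Topology.scott L Set.univ
  have _ : Topology.IsScott L Set.univ := ⟨rfl⟩
  rw [Topology.IsScott.isOpen_iff_isUpperSet_and_dirSupInaccOn (D := Set.univ),
    dirSupInaccOn_univ]

/-- Co-consonance means that the Scott open families are generated by finite sets of points. -/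
theorem coConsonant_iff (X : Type*) [TopologicalSpace X] : CoConsonant X ↔
    ∀ F : Set (Opens X), IsOpen[Topology.scott (Opens X) Set.univ] F → ∀ U ∈ F,
      ∃ S : Set X, S.Finite ∧ S ⊆ U ∧ ∀ V : Opens X, S ⊆ V → V ∈ F := by
  constructor
  · intro h F hF U hU
    rw [← h] at hF
    have hb := TopologicalSpace.isTopologicalBasis_of_subbasis
      (t := Topology.upper (Opens X)) (s := {s | ∃ a, (Iic a)ᶜ = s}) rfl
    obtain ⟨_, ⟨f, ⟨hfin, hfs⟩, rfl⟩, hUf, hfF⟩ :=
      (@TopologicalSpace.IsTopologicalBasis.mem_nhds_iff _ (Topology.upper (Opens X)) _ _ _ hb).mp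
        (@IsOpen.mem_nhds _ (Topology.upper (Opens X)) _ _ hF hU)
    have hx : ∀ s ∈ f, ∃ x : X, x ∈ U ∧ ∀ V : Opens X, x ∈ V → V ∈ s := by
      intro s hs
      obtain ⟨a, rfl⟩ := hfs hs
      have hUa : U ∈ (Iic a)ᶜ := hUf _ hs
      have hnot : ¬ ((U : Set X) ⊆ a) := fun h' => hUa (show U ≤ a from h')
      obtain ⟨x, hxU, hxa⟩ := Set.not_subset.mp hnot
      exact ⟨x, hxU, fun V hV hVa => hxa ((show V ≤ a from hVa) hV)⟩
    choose g hg using hx
    have : Finite f := hfin
    refine ⟨Set.range (fun s : f => g s s.2), Set.finite_range _, ?_, ?_⟩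
    · rintro _ ⟨s, rfl⟩
      exact (hg s s.2).1
    · intro V hV
      apply hfF
      intro s hs
      exact (hg s hs).2 V (hV ⟨⟨s, hs⟩, rfl⟩)
  · intro h
    have h1 : Topology.scott (Opens X) Set.univ ≤ Topology.upper (Opens X) := by
      apply le_generateFrom
      rintro _ ⟨a, rfl⟩
      rw [scott_iff]
      refine ⟨(isLowerSet_Iic a).compl, ?_⟩
      intro d _ _ b hb hba
      by_contra hne
      apply hba
      apply hb.2
      intro c hc
      by_contra hca
      exact hne ⟨c, hc, hca⟩
    refine le_antisymm ?_ h1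
    intro F hF
    have key : ∀ U ∈ F, ∃ T ⊆ F, IsOpen[Topology.upper (Opens X)] T ∧ U ∈ T := by
      intro U hU
      obtain ⟨S, hS, hSU, hSF⟩ := h F hF U hU
      refine ⟨{V : Opens X | S ⊆ V}, fun V hV => hSF V hV, ?_, hSU⟩
      have : {V : Opens X | S ⊆ V} = ⋂ x ∈ S, {V : Opens X | x ∈ V} := by
        ext V
        rw [mem_iInter₂]
        exact Iff.rfl
      rw [this]
      refine @Set.Finite.isOpen_biInter _ _ (Topology.upper (Opens X)) _ _ hS ?_
      intro x _
      apply isOpen_generateFrom_of_mem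
      refine ⟨(Closeds.closure {x}).compl, ?_⟩
      ext V
      constructor
      · intro hV
        by_contra hxV
        apply hV
        intro y hy
        change y ∉ closure {x}
        intro hyc'
        rw [mem_closure_iff] at hyc'
        obtain ⟨z, hz, hzx⟩ := hyc' V V.isOpen hy
        rw [mem_singleton_iff] at hzx
        rw [hzx] at hz
        exact hxV hz
      · intro hV hle
        have := hle hV
        apply this
        exact subset_closure (mem_singleton x)
    choose! T hTF hTo hUT using key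
    have : F = ⋃ U ∈ F, T U := by
      apply Set.Subset.antisymm
      · intro U hU; exact mem_biUnion hU (hUT U hU)
      · exact iUnion₂_subset fun U hU => hTF U hU
    rw [this]
    exact @isOpen_biUnion _ _ (Topology.upper (Opens X)) _ _ fun U hU => hTo U hU

/-! ### The Smyth powerspace -/

variable {X : Type*} [TopologicalSpace X]

/-- the saturation of a set -/
def sat (K : Set X) : Set X := ⋂₀ {U : Set X | IsOpen U ∧ K ⊆ U}

theorem subset_sat (K : Set X) : K ⊆ sat K := subset_sInter fun _ hU => hU.2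

theorem sat_subset {K U : Set X} (hU : IsOpen U) (h : K ⊆ U) : sat K ⊆ U :=
  sInter_subset_of_mem ⟨hU, h⟩

theorem isCompact_sat {K : Set X} (hK : IsCompact K) : IsCompact (sat K) := by
  rw [isCompact_iff_finite_subcover]
  intro ι U hU hc
  obtain ⟨t, ht⟩ := hK.elim_finite_subcover U hU ((subset_sat K).trans hc)
  exact ⟨t, sat_subset (isOpen_biUnion fun i _ => hU i) ht⟩

theorem sat_sat (K : Set X) : ⋂₀ {U : Set X | IsOpen U ∧ sat K ⊆ U} = sat K := by
  apply Set.Subset.antisymm
  · intro x hx U hU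
    exact hx U ⟨hU.1, sat_subset hU.1 hU.2⟩
  · exact subset_sInter fun U hU => hU.2

/-- the saturation of a nonempty compact set as a point of the powerspace -/
def satPt (K : Set X) (h : K.Nonempty) (hK : IsCompact K) : SmythPowerspace X :=
  ⟨sat K, h.mono (subset_sat K), isCompact_sat hK, sat_sat K⟩

theorem isOpen_box {U : Set X} (hU : IsOpen U) : IsOpen {K : SmythPowerspace X | K.1 ⊆ U} :=
  isOpen_generateFrom_of_mem ⟨U, hU, rfl⟩

/-- the open set `□U` of the powerspace -/
def box (U : Opens X) : Opens (SmythPowerspace X) := ⟨_, isOpen_box U.isOpen⟩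

theorem mem_box {U : Opens X} {K : SmythPowerspace X} : K ∈ box U ↔ K.1 ⊆ U := Iff.rfl

/-- the sets `□U` form a base -/
theorem exists_box {W : Set (SmythPowerspace X)} (hW : IsOpen W) {K : SmythPowerspace X}
    (hK : K ∈ W) : ∃ U : Opens X, K.1 ⊆ U ∧ ∀ L : SmythPowerspace X, L.1 ⊆ U → L ∈ W := by
  induction hW with
  | basic s hs =>
    obtain ⟨U, hU, rfl⟩ := hs
    exact ⟨⟨U, hU⟩, hK, fun L hL => hL⟩
  | univ => exact ⟨⊤, fun _ _ => trivial, fun _ _ => trivial⟩
  | inter s t _ _ hs ht =>
    obtain ⟨U, hU, hU'⟩ := hs hK.1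
    obtain ⟨V, hV, hV'⟩ := ht hK.2
    refine ⟨U ⊓ V, fun x hx => ⟨hU hx, hV hx⟩, fun L hL => ⟨hU' L fun x hx => (hL hx).1,
      hV' L fun x hx => (hL hx).2⟩⟩
  | sUnion S _ hS =>
    obtain ⟨s, hs, hKs⟩ := hK
    obtain ⟨U, hU, hU'⟩ := hS s hs hKs
    exact ⟨U, hU, fun L hL => ⟨s, hs, hU' L hL⟩⟩

/-- If `X` is locally compact then its Smyth powerspace is co-consonant. -/
theorem coConsonant_smyth [LocallyCompactSpace X] : CoConsonant (SmythPowerspace X) := by
  rw [coConsonant_iff]
  intro F hF W hW
  rw [scott_iff] at hF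
  obtain ⟨hup, hsup⟩ := hF
  let O : Set (SmythPowerspace X) → Opens (SmythPowerspace X) := fun S =>
    ⟨⋃ K ∈ S, {L : SmythPowerspace X | L.1 ⊆ interior K.1},
      isOpen_biUnion fun K _ => isOpen_box isOpen_interior⟩
  let D : Set (Opens (SmythPowerspace X)) :=
    {T | ∃ S : Set (SmythPowerspace X), S.Finite ∧ S ⊆ W ∧ T = O S}
  have hD1 : D.Nonempty := ⟨O ∅, ∅, finite_empty, empty_subset _, rfl⟩
  have hmono : ∀ S T : Set (SmythPowerspace X), S ⊆ T → O S ≤ O T := by
    intro S T hST
    exact biUnion_subset_biUnion_left hST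
  have hD2 : DirectedOn (· ≤ ·) D := by
    rintro _ ⟨S, hS, hSW, rfl⟩ _ ⟨T, hT, hTW, rfl⟩
    exact ⟨O (S ∪ T), ⟨S ∪ T, hS.union hT, union_subset hSW hTW, rfl⟩,
      hmono _ _ subset_union_left, hmono _ _ subset_union_right⟩
  have hD3 : IsLUB D W := by
    constructor
    · rintro _ ⟨S, hS, hSW, rfl⟩ L hL
      obtain ⟨K, hKS, hLK⟩ := mem_iUnion₂.mp (show L ∈ ⋃ K ∈ S, _ from hL)
      obtain ⟨U, hU, hU'⟩ := exists_box W.isOpen (hSW hKS)
      exact hU' L (fun x hx => hU (interior_subset (hLK hx)))
    · intro T hT K hK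
      obtain ⟨U, hU, hU'⟩ := exists_box W.isOpen hK
      obtain ⟨K', hK', hKK', hK'U⟩ := exists_compact_between K.2.2.1 U.isOpen hU
      have hne : K'.Nonempty := K.2.1.mono (hKK'.trans interior_subset)
      have hsW : satPt K' hne hK' ∈ W := hU' _ (sat_subset U.isOpen hK'U)
      have : O {satPt K' hne hK'} ≤ T :=
        hT ⟨{satPt K' hne hK'}, finite_singleton _, by simpa using hsW, rfl⟩
      apply this
      refine mem_biUnion (mem_singleton _) ?_
      exact hKK'.trans (interior_mono (subset_sat K'))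
  obtain ⟨_, ⟨S, hS, hSW, rfl⟩, hSF⟩ := hsup hD1 hD2 hD3 hW
  refine ⟨S, hS, hSW, ?_⟩
  intro V hV
  refine hup ?_ hSF
  intro L hL
  obtain ⟨K, hKS, hLK⟩ := mem_iUnion₂.mp (show L ∈ ⋃ K ∈ S, _ from hL)
  obtain ⟨U, hU, hU'⟩ := exists_box V.isOpen (hV hKS)
  exact hU' L (fun x hx => hU (interior_subset (hLK hx)))

/-- In a co-consonant space every compact set is contained in the saturation of a finite
subset of it. -/
theorem compact_of_coConsonant (h : CoConsonant X) (K : Set X) (hK : IsCompact K) (U : Opens X)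
    (hKU : K ⊆ U) : ∃ S : Set X, S.Finite ∧ S ⊆ U ∧ K ⊆ sat S := by
  rw [coConsonant_iff] at h
  have hF : IsOpen[Topology.scott (Opens X) Set.univ] {V : Opens X | K ⊆ V} := by
    rw [scott_iff]
    constructor
    · intro V W hVW hV x hx
      exact hVW (hV hx)
    · intro d hd1 hd2 a ha hKa
      have haS : a = sSup d := ha.unique (isLUB_sSup d)
      have hcov : K ⊆ ⋃ V : d, ((V : Opens X) : Set X) := by
        intro x hx
        have : x ∈ sSup d := haS ▸ hKa hx
        rw [Opens.mem_sSup] at this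
        obtain ⟨V, hV, hxV⟩ := this
        exact mem_iUnion.mpr ⟨⟨V, hV⟩, hxV⟩
      have hdir : Directed (· ⊆ ·) (fun V : d => ((V : Opens X) : Set X)) := by
        rintro ⟨V, hV⟩ ⟨W, hW⟩
        obtain ⟨Z, hZ, h1, h2⟩ := hd2 V hV W hW
        exact ⟨⟨Z, hZ⟩, h1, h2⟩
      have : Nonempty d := hd1.to_subtype
      obtain ⟨V, hV⟩ := hK.elim_directed_cover _ (fun V : d => (V : Opens X).isOpen) hcov hdir
      exact ⟨V, V.2, hV⟩
  obtain ⟨S, hS, hSU, hSF⟩ := h _ hF U hKU
  refine ⟨S, hS, hSU, ?_⟩
  intro x hx V hV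
  exact hSF ⟨V, hV.1⟩ hV.2 hx

/-- A co-consonant `T₁` space has no infinite compact subset. -/
theorem finite_of_coConsonant [T1Space X] (h : CoConsonant X) (K : Set X) (hK : IsCompact K) :
    K.Finite := by
  obtain ⟨S, hS, -, hKS⟩ := compact_of_coConsonant h K hK ⊤ (fun _ _ => trivial)
  refine hS.subset fun x hx => ?_
  by_contra hxS
  have := hKS hx {x}ᶜ ⟨isOpen_compl_singleton, fun y hy hyx => hxS (by
    rw [mem_singleton_iff] at hyx; rwa [hyx] at hy)⟩
  exact this rfl

/-- If the Smyth powerspace of `X` is co-consonant then `X` is consonant. -/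
theorem consonant_of_smyth (h : CoConsonant (SmythPowerspace X)) : Consonant X := by
  rw [coConsonant_iff] at h
  intro F hF U hU
  rw [scott_iff] at hF
  obtain ⟨hup, hsup⟩ := hF
  let η : X → SmythPowerspace X := fun x => satPt {x} (singleton_nonempty x) isCompact_singleton
  have hη : Continuous η := by
    apply continuous_generateFrom_iff.mpr
    rintro _ ⟨V, hV, rfl⟩
    have : η ⁻¹' {K : SmythPowerspace X | K.1 ⊆ V} = V := by
      ext x
      constructor
      · intro hx
        exact hx (subset_sat _ (mem_singleton x))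
      · intro hx
        exact sat_subset hV (singleton_subset_iff.mpr hx)
    rw [this]; exact hV
  let R : Opens (SmythPowerspace X) → Opens X := fun W => ⟨η ⁻¹' W, W.isOpen.preimage hη⟩
  have hG : IsOpen[Topology.scott (Opens (SmythPowerspace X)) Set.univ]
      {W : Opens (SmythPowerspace X) | R W ∈ F} := by
    rw [scott_iff]
    constructor
    · intro W W' hWW' hW
      exact hup (fun x hx => hWW' hx) hW
    · intro d hd1 hd2 a ha haF
      have haS : a = sSup d := ha.unique (isLUB_sSup d)
      have hL : IsLUB (R '' d) (R a) := by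
        constructor
        · rintro _ ⟨W, hW, rfl⟩ x hx
          exact ha.1 hW hx
        · intro T hT x hx
          have hx' : η x ∈ sSup d := haS ▸ hx
          rw [Opens.mem_sSup] at hx'
          obtain ⟨W, hW, hxW⟩ := hx'
          exact hT ⟨W, hW, rfl⟩ hxW
      have hdir : DirectedOn (· ≤ ·) (R '' d) := by
        rintro _ ⟨W, hW, rfl⟩ _ ⟨W', hW', rfl⟩
        obtain ⟨Z, hZ, h1, h2⟩ := hd2 W hW W' hW'
        exact ⟨R Z, ⟨Z, hZ, rfl⟩, fun x hx => h1 hx, fun x hx => h2 hx⟩
      obtain ⟨_, ⟨W, hW, rfl⟩, hWF⟩ := hsup (hd1.image R) hdir hL haF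
      exact ⟨W, hW, hWF⟩
  have hRbox : ∀ V : Opens X, R (box V) = V := by
    intro V
    ext x
    constructor
    · intro hx
      exact hx (subset_sat _ (mem_singleton x))
    · intro hx
      exact sat_subset V.isOpen (singleton_subset_iff.mpr hx)
  obtain ⟨S, hS, hSU, hSF⟩ := h _ hG (box U) (by
    change R (box U) ∈ F
    rw [hRbox]; exact hU)
  refine ⟨⋃ K ∈ S, K.1, hS.isCompact_biUnion fun K _ => K.2.2.1, ?_, ?_⟩
  · exact iUnion₂_subset fun K hK => hSU hK
  · intro V hV
    have := hSF (box V) (fun K hK => (subset_biUnion_of_mem (u := fun K => K.1) hK).trans hV)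
    change R (box V) ∈ F at this
    rwa [hRbox] at this

/-- **Q1 is false.** The real line is a counterexample: its Smyth powerspace is co-consonant, the
real line itself is not. More generally the Smyth powerspace of every locally compact space is
co-consonant, while a co-consonant `T₁` space has only finite compact subsets. What does follow
from co-consonance of the Smyth powerspace is consonance of `X`. -/
theorem result :
    (¬ ∀ (X : Type) [TopologicalSpace X] [T0Space X],
      CoConsonant (SmythPowerspace X) → CoConsonant X) ∧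
    (CoConsonant (SmythPowerspace ℝ) ∧ ¬ CoConsonant ℝ) ∧
    (∀ (X : Type*) [TopologicalSpace X] [LocallyCompactSpace X],
      CoConsonant (SmythPowerspace X)) ∧
    (∀ (X : Type*) [TopologicalSpace X] [T1Space X], CoConsonant X →
      ∀ K : Set X, IsCompact K → K.Finite) ∧
    (∀ (X : Type*) [TopologicalSpace X], CoConsonant (SmythPowerspace X) → Consonant X) := by
  have hR : ¬ CoConsonant ℝ := fun h =>
    (Set.Icc_infinite (zero_lt_one : (0 : ℝ) < 1)) (finite_of_coConsonant h _ isCompact_Icc)
  refine ⟨fun h => hR (h ℝ coConsonant_smyth), ⟨coConsonant_smyth, hR⟩,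
    fun X _ _ => coConsonant_smyth, fun X _ _ h K hK => finite_of_coConsonant h K hK,
    fun X _ h => consonant_of_smyth h⟩

end Pool.Agent.Results.MP_dd3b7d_gt.SmythCoConsonance
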